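import Mathlib
import Pool.Agent.K1H27.VM.Stm

set_option autoImplicit false

/-!
# The exponential weight: `S_WGT`
-/

open MeasureTheory Set Filter Topology
open scoped ENNReal NNReal

namespace Pool.Agent.K1H65.VM

variable {S : Type} [MeasurableSpace S] (ν : Measure S) [IsFiniteMeasure ν] (τ : S → ℝ)

/-- the distribution function -/
noncomputable def F (s : ℝ) : ℝ := (ν {u | τ u < s}).toReal

theorem F_mono : Monotone (F ν τ) := fun _ _ h =>
  ENNReal.toReal_mono (measure_ne_top _ _) (measure_mono fun _ hu => lt_of_lt_of_le hu h)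

omit [IsFiniteMeasure ν] in
theorem F_nonneg (s : ℝ) : 0 ≤ F ν τ s := ENNReal.toReal_nonneg

theorem F_of (s : ℝ) : ENNReal.ofReal (F ν τ s) = ν {u | τ u < s} :=
  ENNReal.ofReal_toReal (measure_ne_top _ _)

variable {τ}

theorem Ico_le (hτ : Measurable τ) {t u σ : ℝ} (hσt : σ < t) (hσ : u < F ν τ σ) :
    ν {y | σ ≤ τ y ∧ τ y < t} ≤ ENNReal.ofReal (F ν τ t - u) := by
  have h1 : {y | σ ≤ τ y ∧ τ y < t} = {y | τ y < t} \ {y | τ y < σ} := by
    ext y
    simp only [mem_ofPred_eq, Set.mem_sdiff, not_lt]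
    tauto
  have h2 : ν ({y | τ y < t} \ {y | τ y < σ}) = ν {y | τ y < t} - ν {y | τ y < σ} :=
    measure_sdiff (fun y hy => lt_trans hy hσt) (measurableSet_lt hτ measurable_const).nullMeasurableSet
      (measure_ne_top _ _)
  rw [h1, h2, ← F_of, ← F_of, ← ENNReal.ofReal_sub _ (F_nonneg ν τ σ)]
  exact ENNReal.ofReal_le_ofReal (by linarith)

/-- the distribution of the distribution function -/
theorem claimA (hτ : Measurable τ) (t u : ℝ) :
    ν {y | τ y < t ∧ u < F ν τ (τ y)} ≤ ENNReal.ofReal (F ν τ t - u) := by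
  obtain ⟨J, hJ⟩ : ∃ J : Set ℝ, J = {σ | σ < t ∧ u < F ν τ σ} := ⟨_, rfl⟩
  have hset : {y | τ y < t ∧ u < F ν τ (τ y)} = {y | τ y ∈ J} := by rw [hJ]; rfl
  have hup : ∀ σ ∈ J, ∀ σ', σ ≤ σ' → σ' < t → σ' ∈ J := by
    intro σ hσ σ' h1 h2
    rw [hJ] at hσ ⊢
    exact ⟨h2, lt_of_lt_of_le hσ.2 (F_mono ν τ h1)⟩
  have hJt : ∀ σ ∈ J, σ < t ∧ u < F ν τ σ := fun σ hσ => by rw [hJ] at hσ; exact hσ
  rw [hset]
  by_cases hmin : ∃ σ ∈ J, ∀ σ' ∈ J, σ ≤ σ'
  · obtain ⟨σ, hσ, hm⟩ := hmin
    refine le_trans (measure_mono fun y hy => ?_) (Ico_le ν hτ (hJt σ hσ).1 (hJt σ hσ).2)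
    exact ⟨hm _ hy, (hJt _ hy).1⟩
  · push Not at hmin
    have hU : {y | τ y ∈ J} = ⋃ q : {q : ℚ // (q : ℝ) ∈ J}, {y | ((q : ℚ) : ℝ) ≤ τ y ∧ τ y < t} := by
      ext y
      simp only [mem_ofPred_eq, mem_iUnion]
      constructor
      · intro hy
        obtain ⟨σ', h1, h2⟩ := hmin _ hy
        obtain ⟨q, hq1, hq2⟩ := exists_rat_btwn h2
        exact ⟨⟨q, hup _ h1 _ hq1.le (hq2.trans (hJt _ hy).1)⟩, hq2.le, (hJt _ hy).1⟩
      · rintro ⟨q, h1, h2⟩
        exact hup _ q.2 _ h1 h2
    have hd : Directed (· ⊆ ·) (fun q : {q : ℚ // (q : ℝ) ∈ J} =>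
        {y | ((q : ℚ) : ℝ) ≤ τ y ∧ τ y < t}) := by
      intro q q'
      rcases le_total ((q : ℚ) : ℝ) ((q' : ℚ) : ℝ) with h | h
      · exact ⟨q, fun y hy => hy, fun y hy => ⟨h.trans hy.1, hy.2⟩⟩
      · exact ⟨q', fun y hy => ⟨h.trans hy.1, hy.2⟩, fun y hy => hy⟩
    rw [hU, hd.measure_iUnion]
    exact iSup_le fun q => Ico_le ν hτ (hJt _ q.2).1 (hJt _ q.2).2

open Pool.Agent.K1H27.VM in
/-- WGT: the exponential weight -/
theorem t_WGT : S_WGT := by
  intro S _ ν _ τ hτ c hc t
  obtain ⟨M, hM⟩ : ∃ M : ℝ, M = F ν τ t := ⟨_, rfl⟩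
  have hM0 : 0 ≤ M := by rw [hM]; exact F_nonneg ν τ t
  have hmeas : Measurable fun y => F ν τ (τ y) := (F_mono ν τ).measurable.comp hτ
  have hint : ∀ x : ℝ, ∫ s in (0 : ℝ)..x, c * Real.exp (c * s) = Real.exp (c * x) - 1 := by
    intro x
    have h1 : ∀ s ∈ uIcc (0 : ℝ) x, HasDerivAt (fun s => Real.exp (c * s)) (c * Real.exp (c * s)) s := by
      intro s _
      have h2 := ((hasDerivAt_id s).const_mul c).exp
      simp only [id, mul_one] at h2
      rw [mul_comm c]
      exact h2
    rw [intervalIntegral.integral_eq_sub_of_hasDerivAt h1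
      ((by fun_prop : Continuous fun s => c * Real.exp (c * s)).intervalIntegrable _ _)]
    simp
  have hlc := lintegral_comp_eq_lintegral_meas_lt_mul (ν.restrict {y | τ y < t})
    (f := fun y => F ν τ (τ y)) (g := fun s => c * Real.exp (c * s))
    (Eventually.of_forall fun y => F_nonneg ν τ _) hmeas.aemeasurable
    (fun s _ => (by fun_prop : Continuous fun s => c * Real.exp (c * s)).intervalIntegrable _ _)
    (Eventually.of_forall fun s => by positivity)
  have hsplit : ∀ y, ENNReal.ofReal (Real.exp (c * (ν {u | τ u < τ y}).toReal)) =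
      1 + ENNReal.ofReal (∫ s in (0 : ℝ)..F ν τ (τ y), c * Real.exp (c * s)) := by
    intro y
    rw [hint, ← ENNReal.ofReal_one, ← ENNReal.ofReal_add zero_le_one (by
      have : 0 ≤ c * F ν τ (τ y) := mul_nonneg hc.le (F_nonneg ν τ _)
      linarith [Real.one_le_exp this])]
    congr 1
    unfold F
    ring
  have hle : ∫⁻ s in Ioi (0 : ℝ), (ν.restrict {y | τ y < t}) {a | s < F ν τ (τ a)} *
      ENNReal.ofReal (c * Real.exp (c * s)) ≤
      ENNReal.ofReal (Real.exp (c * M) / c - M - 1 / c) := by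
    have h1 : ∀ s : ℝ, (ν.restrict {y | τ y < t}) {a | s < F ν τ (τ a)} ≤
        ENNReal.ofReal (M - s) := by
      intro s
      rw [Measure.restrict_apply (measurableSet_lt measurable_const hmeas)]
      have h2 : {a | s < F ν τ (τ a)} ∩ {y | τ y < t} = {y | τ y < t ∧ s < F ν τ (τ y)} := by
        ext y; simp only [mem_inter_iff, mem_ofPred_eq]; tauto
      rw [h2, hM]
      exact claimA ν hτ t s
    have h2 : ∫⁻ s in Ioi (0 : ℝ), (ν.restrict {y | τ y < t}) {a | s < F ν τ (τ a)} *
      ENNReal.ofReal (c * Real.exp (c * s)) ≤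
      ∫⁻ s in Ioi (0 : ℝ), ENNReal.ofReal ((M - s) * (c * Real.exp (c * s))) := by
      refine lintegral_mono fun s => ?_
      refine (mul_le_mul_left (h1 s) _).trans (le_of_eq ?_)
      exact (ENNReal.ofReal_mul' (by positivity)).symm
    refine h2.trans ?_
    have h3 : ∫⁻ s in Ioi (0 : ℝ), ENNReal.ofReal ((M - s) * (c * Real.exp (c * s))) =
        ∫⁻ s in Ioc (0 : ℝ) M, ENNReal.ofReal ((M - s) * (c * Real.exp (c * s))) := by
      rw [← lintegral_indicator measurableSet_Ioi, ← lintegral_indicator measurableSet_Ioc]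
      refine lintegral_congr fun s => ?_
      by_cases h4 : s ∈ Ioc (0 : ℝ) M
      · rw [indicator_of_mem h4, indicator_of_mem (Ioc_subset_Ioi_self h4)]
      · rw [indicator_of_notMem h4]
        by_cases h5 : s ∈ Ioi (0 : ℝ)
        · rw [indicator_of_mem h5]
          refine ENNReal.ofReal_eq_zero.2 ?_
          rw [mem_Ioc, not_and, not_le] at h4
          have h6 := h4 h5
          exact mul_nonpos_of_nonpos_of_nonneg (by linarith) (by positivity)
        · rw [indicator_of_notMem h5]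
    rw [h3, ← ofReal_integral_eq_lintegral_ofReal]
    · refine ENNReal.ofReal_le_ofReal (le_of_eq ?_)
      rw [← intervalIntegral.integral_of_le hM0]
      have h1 : ∀ s ∈ uIcc (0 : ℝ) M, HasDerivAt (fun s => (M - s) * Real.exp (c * s) + Real.exp (c * s) / c)
          ((M - s) * (c * Real.exp (c * s))) s := by
        intro s _
        have h2 := ((hasDerivAt_id s).const_mul c).exp
        simp only [id, mul_one] at h2
        have h4 := (((hasDerivAt_id s).const_sub M).mul h2).add (h2.div_const c)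
        refine h4.congr_deriv ?_
        simp only [id]
        field_simp
        ring
      rw [intervalIntegral.integral_eq_sub_of_hasDerivAt h1
        ((by fun_prop : Continuous fun s => (M - s) * (c * Real.exp (c * s))).intervalIntegrable _ _)]
      simp
      ring
    · exact (by fun_prop : Continuous fun s => (M - s) * (c * Real.exp (c * s))).integrableOn_Ioc
    · refine (ae_restrict_iff' measurableSet_Ioc).2 (Eventually.of_forall fun s hs => ?_)
      exact mul_nonneg (by linarith [hs.2]) (by positivity)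
  calc ∫⁻ y in {y | τ y < t}, ENNReal.ofReal (Real.exp (c * (ν {u | τ u < τ y}).toReal)) ∂ν =
      ∫⁻ y in {y | τ y < t},
        (1 + ENNReal.ofReal (∫ s in (0 : ℝ)..F ν τ (τ y), c * Real.exp (c * s))) ∂ν :=
        lintegral_congr hsplit
    _ = ENNReal.ofReal M + ∫⁻ s in Ioi (0 : ℝ), (ν.restrict {y | τ y < t}) {a | s < F ν τ (τ a)} *
      ENNReal.ofReal (c * Real.exp (c * s)) := by
        rw [lintegral_add_left measurable_const, hlc, lintegral_const, one_mul, hM, F_of]
        congr 1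
        rw [Measure.restrict_apply_univ]
    _ ≤ ENNReal.ofReal M + ENNReal.ofReal (Real.exp (c * M) / c - M - 1 / c) := by gcongr
    _ = ENNReal.ofReal (M + (Real.exp (c * M) / c - M - 1 / c)) := by
        rw [ENNReal.ofReal_add hM0]
        have h1 := Real.add_one_le_exp (c * M)
        have h2 : Real.exp (c * M) / c - M - 1 / c = (Real.exp (c * M) - (c * M + 1)) / c := by
          field_simp
          ring
        rw [h2]
        exact div_nonneg (by linarith) hc.le
    _ ≤ _ := by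
        refine ENNReal.ofReal_le_ofReal ?_
        rw [hM]
        unfold F
        have : 0 < 1 / c := by positivity
        rw [inv_mul_eq_div]
        linarith

end Pool.Agent.K1H65.VM
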